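import Mathlib
import Pool.Agent.Q292.BZ.Defs
import Pool.Agent.Q292.BZ.Main

/-!
# Support-preserving convolution endomorphisms of finitely supported laws on `ℤ^d`
-/

namespace Pool.Agent.Results.MP_847c7e_pr.Classification

open Q292.BZ Q292.BZ.FinProb

/-- `Φ` is an endomorphism of the convolution semigroup. -/
def IsEndomorphism {d : ℕ} (Φ : FinProb d → FinProb d) : Prop :=
  ∀ μ ν, Φ (conv μ ν) = conv (Φ μ) (Φ ν)

/-- `Φ` preserves supports. -/
def IsSupportPreserving {d : ℕ} (Φ : FinProb d → FinProb d) : Prop :=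
  ∀ μ, (Φ μ).supp = μ.supp

/-- In every dimension, the support-preserving endomorphisms of the convolution semigroup of
finitely supported probability measures on `ℤ^d` are exactly the Boltzmann reweightings. -/
theorem result (d : ℕ) (Φ : FinProb d → FinProb d) :
    IsEndomorphism Φ ∧ IsSupportPreserving Φ ↔ ∃ β : Fin d → ℝ, ∀ μ, Φ μ = boltzmann β μ := by
  constructor
  · rintro ⟨h1, h2⟩
    obtain ⟨β, hβ⟩ := eq_boltzmann (Φ := Φ) ⟨h1, h2⟩
    exact ⟨β, fun μ => by rw [hβ]⟩
  · rintro ⟨β, hβ⟩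
    refine ⟨fun μ ν => ?_, fun μ => ?_⟩
    · rw [hβ, hβ, hβ, boltzmann_conv]
    · rw [hβ, boltzmann_supp]

end Pool.Agent.Results.MP_847c7e_pr.Classification
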